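import Mathlib

namespace Pool.Agent.Results.MP_1f9c83_co.Disproof

open Finset

variable {d n : ℕ}

/-- The sum of `K` over the hyperplane `α_i = t`. -/
def hyp (K : (Fin d → Fin n) → ℝ) (i : Fin d) (t : Fin n) : ℝ :=
  ∑ α ∈ univ.filter (fun α : Fin d → Fin n => α i = t), K α

/-- `K` is a polyplex in the `(0,1)`-matrix whose set of unity entries is `A`. -/
def IsPolyplex (A : Set (Fin d → Fin n)) (K : (Fin d → Fin n) → ℝ) : Prop :=
  (∀ α, 0 ≤ K α) ∧ (∀ α, α ∉ A → K α = 0) ∧ ∀ i t, hyp K i t ≤ 1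

def HasPolydiagonal (A : Set (Fin d → Fin n)) : Prop :=
  ∃ K, IsPolyplex A K ∧ ∀ i t, hyp K i t = 1

/-- No polydiagonal, but turning any single `0` into `1` creates one. -/
def Extremal (A : Set (Fin d → Fin n)) : Prop :=
  ¬ HasPolydiagonal A ∧ ∀ α, α ∉ A → HasPolydiagonal (insert α A)

/-- `δ` is the deficiency: `n - δ` is the largest weight of a polyplex in `A`. -/
def IsDeficiency (A : Set (Fin d → Fin n)) (δ : ℝ) : Prop :=
  IsGreatest {w | ∃ K, IsPolyplex A K ∧ ∑ α, K α = w} (n - δ)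

def lam : Fin 10 → ℕ := ![3, 3, 8, 11, 14, 17, 21, 21, 29, 33]

def A0 : Set (Fin 10 → Fin 2) := {α | 81 ≤ ∑ i, lam i * (α i).val}

lemma hyp_pts {m : ℕ} (p : Fin m → Fin d → Fin n) (c : Fin m → ℝ) (i : Fin d) (t : Fin n) :
    hyp (fun α => ∑ j, if α = p j then c j else 0) i t = ∑ j, if p j i = t then c j else 0 := by
  unfold hyp
  rw [sum_comm]
  refine sum_congr rfl fun j _ => ?_
  rw [sum_ite_eq']
  simp

lemma upper (K : (Fin 10 → Fin 2) → ℝ) (hK : IsPolyplex A0 K) : ∑ α, K α ≤ 160 / 81 := by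
  have h1 : ∀ α, 81 * K α ≤ ∑ i, (lam i : ℝ) * (if α i = 1 then K α else 0) := fun α => by
    have e : ∑ i, (lam i : ℝ) * (if α i = 1 then K α else 0) =
        ((∑ i, lam i * (α i).val : ℕ) : ℝ) * K α := by
      push_cast
      rw [sum_mul]
      refine sum_congr rfl fun i _ => ?_
      generalize α i = x
      fin_cases x <;> simp
    rw [e]
    by_cases h : α ∈ A0
    · exact mul_le_mul_of_nonneg_right (by exact_mod_cast h) (hK.1 α)
    · simp [hK.2.1 α h]
  have h2 := sum_le_sum fun α (_ : α ∈ univ) => h1 α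
  rw [← mul_sum, sum_comm] at h2
  have h3 : ∀ i ∈ univ, ∑ α : Fin 10 → Fin 2, (lam i : ℝ) * (if α i = 1 then K α else 0) ≤ lam i :=
    fun i _ => by
      rw [← mul_sum, ← sum_filter]
      exact mul_le_of_le_one_right (by positivity) (hK.2.2 i 1)
  have h4 := h2.trans (sum_le_sum h3)
  have h5 : ∑ i, (lam i : ℝ) = 160 := by
    have : ∑ i, lam i = 160 := by decide
    exact_mod_cast this
  linarith

def P : Fin 10 → Fin 10 → Fin 2 :=
  ![![1, 1, 0, 0, 0, 0, 1, 1, 0, 1],
    ![1, 1, 0, 1, 1, 0, 1, 0, 1, 0],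
    ![1, 1, 0, 1, 1, 1, 0, 0, 0, 1],
    ![0, 0, 1, 1, 0, 0, 0, 0, 1, 1],
    ![0, 1, 0, 1, 0, 1, 1, 0, 1, 0],
    ![1, 1, 1, 0, 0, 1, 1, 0, 1, 0],
    ![1, 0, 0, 1, 0, 1, 0, 1, 1, 0],
    ![0, 0, 0, 0, 1, 1, 0, 1, 1, 0],
    ![0, 0, 1, 0, 1, 1, 1, 1, 0, 0],
    ![1, 1, 1, 0, 0, 1, 0, 1, 1, 0]]

def C : Fin 10 → ℕ := ![25, 19, 21, 35, 3, 1, 3, 8, 33, 12]

lemma lower : ∃ K, IsPolyplex A0 K ∧ ∑ α, K α = 160 / 81 := by
  refine ⟨fun α => ∑ j, if α = P j then (C j : ℝ) / 81 else 0, ⟨fun α => ?_, fun α h => ?_,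
    fun i t => ?_⟩, ?_⟩
  · exact sum_nonneg fun j _ => by split_ifs <;> positivity
  · have : ∀ j, 81 ≤ ∑ i, lam i * (P j i).val := by decide +kernel
    exact sum_eq_zero fun j _ => if_neg fun e : α = P j => h (by rw [e]; exact this j)
  · rw [hyp_pts]
    have : ∀ i t, (∑ j, if P j i = t then C j else 0) ≤ 81 := by decide +kernel
    have h : ((∑ j, if P j i = t then C j else 0 : ℕ) : ℝ) ≤ 81 := by exact_mod_cast this i t
    push_cast at h
    have e : ∑ j, (if P j i = t then (C j : ℝ) / 81 else 0) =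
        (∑ j, if P j i = t then (C j : ℝ) else 0) / 81 := by
      rw [sum_div]; exact sum_congr rfl fun j _ => by split_ifs <;> simp
    rw [e, div_le_one (by norm_num)]
    exact h
  · rw [sum_comm]
    simp only [sum_ite_eq', mem_univ, if_true]
    rw [← sum_div]
    have : ∑ j, C j = 160 := by decide
    congr 1
    exact_mod_cast this

lemma no80 (α : Fin 10 → Fin 2) : ∑ i, lam i * (α i).val ≠ 80 := by
  have : ∀ a b c d e f g h i j : Fin 2, 3 * a.val + 3 * b.val + 8 * c.val + 11 * d.val + 14 * e.val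
      + 17 * f.val + 21 * g.val + 21 * h.val + 29 * i.val + 33 * j.val ≠ 80 := by decide +kernel
  have h := this (α 0) (α 1) (α 2) (α 3) (α 4) (α 5) (α 6) (α 7) (α 8) (α 9)
  simp only [Fin.sum_univ_succ, lam]
  simp
  omega

lemma extremal : Extremal A0 := by
  refine ⟨?_, fun α h => ?_⟩
  · rintro ⟨K, hK, h⟩
    have h1 := upper K hK
    have h2 := sum_fiberwise univ (fun α : Fin 10 → Fin 2 => α 0) K
    rw [Fin.sum_univ_two] at h2
    have a := h 0 0
    have b := h 0 1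
    unfold hyp at a b
    linarith
  · have hs : ∑ i, lam i * (α i).val + ∑ i, lam i * ((α i).rev).val = 160 := by
      rw [← sum_add_distrib]
      have : ∑ i, lam i = 160 := by decide
      rw [← this]
      refine sum_congr rfl fun i _ => ?_
      generalize α i = x
      fin_cases x <;> simp
    have hm : (fun i => (α i).rev) ∈ A0 := by
      have := no80 α
      simp only [A0, Set.mem_ofPred_eq] at h ⊢
      omega
    have e : ∀ i t, hyp (fun β => ∑ j : Fin 2, if β = ![α, fun i => (α i).rev] j then (1 : ℝ) else 0)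
        i t = 1 := fun i t => by
      rw [hyp_pts, Fin.sum_univ_two]
      have : ∀ x t : Fin 2, ((if x = t then 1 else 0) + if x.rev = t then 1 else 0 : ℝ) = 1 :=
        fun x t => by fin_cases x <;> fin_cases t <;> simp
      exact this (α i) t
    refine ⟨_, ⟨fun β => ?_, fun β hβ => ?_, fun i t => (e i t).le⟩, e⟩
    · exact sum_nonneg fun j _ => by split_ifs <;> norm_num
    · rw [Fin.sum_univ_two, if_neg, if_neg, add_zero]
      · rintro rfl; exact hβ (Or.inr hm)
      · rintro rfl; exact hβ (Or.inl rfl)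

/-- An extremal `10`-dimensional matrix of order `2` with deficiency `2 / 81`, which is not the
reciprocal of a positive integer. -/
theorem result : ∃ (d n : ℕ) (A : Set (Fin d → Fin n)) (δ : ℝ), 2 ≤ d ∧ 1 ≤ n ∧ Extremal A ∧
    IsDeficiency A δ ∧ ∀ m : ℕ, 0 < m → δ ≠ 1 / m := by
  refine ⟨10, 2, A0, 2 / 81, by norm_num, by norm_num, extremal, ⟨?_, ?_⟩, fun m hm h => ?_⟩
  · obtain ⟨K, h1, h2⟩ := lower
    exact ⟨K, h1, by rw [h2]; norm_num⟩
  · rintro _ ⟨K, h1, rfl⟩
    have := upper K h1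
    push_cast
    linarith
  · have hm' : (m : ℝ) ≠ 0 := by positivity
    field_simp at h
    have : 2 * m = 81 := by exact_mod_cast h
    omega

end Pool.Agent.Results.MP_1f9c83_co.Disproof
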